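import Pool.Agent.W633.LT.BC

set_option autoImplicit false

/-! # LG-MGOOD: vector bundles on `P^1 x P^1` give good operator families -/

namespace Pool.Agent.W605.LG

open W633.LT

variable {k : Type} [Field k]

theorem torMap_injective {b c b' c' : SignType} (hb : Sub b b') (hc : Sub c c') :
    Function.Injective (torMap k hb hc) := by
  have h1 : Function.Injective (AddSubmonoid.inclusion (Tor_le hb hc)) :=
    AddSubmonoid.inclusion_injective _
  intro x y hxy
  exact AddMonoidAlgebra.mapDomain_injective (R := k) h1 hxy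

theorem torMap_single {b c b' c' : SignType} (hb : Sub b b') (hc : Sub c c') (m : Tor b c)
    (r : k) : torMap k hb hc (AddMonoidAlgebra.single m r) =
      AddMonoidAlgebra.single (AddSubmonoid.inclusion (Tor_le hb hc) m) r := by
  simp [torMap]

theorem res_inj (N : MFam k) {b c b' c' : SignType} (hb : Sub b b') (hc : Sub c c') :
    Function.Injective (N.res hb hc) :=
  (N.res_bc hb hc).injective (torMap_injective hb hc)

/-! ### finite generation -/

theorem fg (N : MFam k) (b c : SignType) : ∃ W : Finset (N.toFam.V b c), Submodule.span k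
    {u | ∃ w ∈ W, ∃ m n : ℤ, 0 ≤ (b : ℤ) * m ∧ 0 ≤ (c : ℤ) * n ∧
      u = N.toFam.act b c m n w} = ⊤ := by
  obtain ⟨W0, hW⟩ := Module.Finite.fg_top (R := TorRing k b c) (M := N.mod b c)
  obtain ⟨W, hW0⟩ : ∃ W : Finset (N.toFam.V b c), W = W0 := ⟨W0, rfl⟩
  obtain ⟨S, hS⟩ : ∃ S : Submodule k (N.toFam.V b c), S = Submodule.span k
    {u | ∃ w ∈ W, ∃ m n : ℤ, 0 ≤ (b : ℤ) * m ∧ 0 ≤ (c : ℤ) * n ∧
      u = N.toFam.act b c m n w} := ⟨_, rfl⟩
  refine ⟨W, hS.symm.trans ?_⟩
  rw [eq_top_iff]
  have hchi : ∀ m : ℤ × ℤ, m ∈ Tor b c → ∀ x ∈ S, N.toFam.act b c m.1 m.2 x ∈ S := by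
    intro m hm x hx
    rw [hS] at hx
    induction hx using Submodule.span_induction with
    | mem u hu =>
      obtain ⟨w, hw, m', n', hm', hn', rfl⟩ := hu
      rw [← N.toFam.act_add b c m.1 m.2 m' n' hm.1 hm' hm.2 hn']
      rw [hS]
      refine Submodule.subset_span ⟨w, hw, m.1 + m', m.2 + n', ?_, ?_, rfl⟩
      · rw [mul_add]; exact add_nonneg hm.1 hm'
      · rw [mul_add]; exact add_nonneg hm.2 hn'
    | zero => rw [map_zero]; exact zero_mem _
    | add u v _ _ hu hv => rw [map_add]; exact add_mem hu hv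
    | smul r u _ hu => rw [map_smul]; exact Submodule.smul_mem _ _ hu
  have hsmul : ∀ (a : TorRing k b c) (x : N.mod b c), (x : N.toFam.V b c) ∈ S →
      ((a • x : N.mod b c) : N.toFam.V b c) ∈ S := by
    intro a x hx
    induction a using AddMonoidAlgebra.induction_linear with
    | zero => rw [zero_smul]; exact zero_mem S
    | add a a' ha ha' => rw [add_smul]; exact S.add_mem ha ha'
    | single m r =>
      have h1 : (AddMonoidAlgebra.single m r : TorRing k b c) =
          algebraMap k (TorRing k b c) r * chi k b c m.1 := by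
        rw [chi_of_mem m.2, AddMonoidAlgebra.coe_algebraMap]
        simp [AddMonoidAlgebra.single_mul_single]
      rw [h1, mul_smul]
      exact Submodule.smul_mem S r (hchi m.1 m.2 x hx)
  intro v _
  have hv : (v : N.mod b c) ∈ Submodule.span (TorRing k b c) (W0 : Set (N.mod b c)) := by
    rw [hW]; trivial
  induction hv using Submodule.span_induction with
  | mem w hw =>
    rw [hS]
    refine Submodule.subset_span ⟨w, by rw [hW0]; exact hw, 0, 0, by simp, by simp, ?_⟩
    exact (N.toFam.act_zero b c w).symm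
  | zero => exact zero_mem S
  | add u v _ _ hu hv => exact S.add_mem (hu trivial) (hv trivial)
  | smul a u _ hu => exact hsmul a u (hu trivial)

/-! ### localisation -/

/-- the localisation property of one element -/
def Loc (N : MFam k) {b c b' c' : SignType} (hb : Sub b b') (hc : Sub c c')
    (v : N.mod b' c') : Prop :=
  ∃ m n : ℤ, 0 ≤ (b : ℤ) * m ∧ 0 ≤ (c : ℤ) * n ∧ (b' = b → m = 0) ∧ (c' = c → n = 0) ∧
    ∃ e : N.mod b c, N.res hb hc e = chi k b' c' (m, n) • v

theorem exists_shift {b b' : SignType} (hb : Sub b b') (m : ℤ) (hm : 0 ≤ (b' : ℤ) * m) :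
    ∃ m' : ℤ, 0 ≤ (b : ℤ) * m' ∧ (b' = b → m' = 0) ∧ 0 ≤ (b : ℤ) * (m' + m) := by
  by_cases h : b' = b
  · subst h
    exact ⟨0, by simp, fun _ => rfl, by simpa using hm⟩
  · have h0 : b' = 0 := hb.resolve_left h
    refine ⟨(b : ℤ) * |m|, ?_, fun h' => absurd h' h, ?_⟩
    · have := abs_nonneg m
      nlinarith [mul_self_nonneg (b : ℤ)]
    · rcases b with _ | _ | _
      · simp
      · have : ((SignType.neg : SignType) : ℤ) = -1 := rfl
        rw [this]
        have := le_abs_self m
        linarith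
      · have : ((SignType.pos : SignType) : ℤ) = 1 := rfl
        rw [this]
        have := neg_abs_le m
        linarith

theorem loc_add (N : MFam k) {b c b' c' : SignType} (hb : Sub b b') (hc : Sub c c')
    {v w : N.mod b' c'} (hv : Loc N hb hc v) (hw : Loc N hb hc w) : Loc N hb hc (v + w) := by
  obtain ⟨m, n, hm, hn, hm0, hn0, e, he⟩ := hv
  obtain ⟨m', n', hm', hn', hm0', hn0', e', he'⟩ := hw
  have hT : ((m, n) : ℤ × ℤ) ∈ Tor b c := ⟨hm, hn⟩
  have hT' : ((m', n') : ℤ × ℤ) ∈ Tor b c := ⟨hm', hn'⟩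
  refine ⟨m + m', n + n', by rw [mul_add]; exact add_nonneg hm hm',
    by rw [mul_add]; exact add_nonneg hn hn', fun h => by rw [hm0 h, hm0' h, add_zero],
    fun h => by rw [hn0 h, hn0' h, add_zero],
    chi k b c (m', n') • e + chi k b c (m, n) • e', ?_⟩
  rw [map_add, (N.res_bc hb hc).1, (N.res_bc hb hc).1, he, he', torMap_chi hb hc hT,
    torMap_chi hb hc hT', smul_smul, smul_smul, chi_mul (Tor_le hb hc hT') (Tor_le hb hc hT),
    chi_mul (Tor_le hb hc hT) (Tor_le hb hc hT'), smul_add]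
  have h1 : ((m', n') : ℤ × ℤ) + (m, n) = (m + m', n + n') := by
    ext <;> simp [add_comm]
  have h2 : ((m, n) : ℤ × ℤ) + (m', n') = (m + m', n + n') := rfl
  rw [h1, h2]

theorem loc_smul (N : MFam k) {b c b' c' : SignType} (hb : Sub b b') (hc : Sub c c')
    {v : N.mod b' c'} (hv : Loc N hb hc v) (a : TorRing k b' c') : Loc N hb hc (a • v) := by
  induction a using AddMonoidAlgebra.induction_linear with
  | zero => exact ⟨0, 0, by simp, by simp, fun _ => rfl, fun _ => rfl, 0, by simp⟩
  | add a a' ha ha' => rw [add_smul]; exact loc_add N hb hc ha ha'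
  | single x r =>
    obtain ⟨m, n, hm, hn, hm0, hn0, e, he⟩ := hv
    obtain ⟨m1, h1, h2, h3⟩ := exists_shift hb x.1.1 x.2.1
    obtain ⟨n1, g1, g2, g3⟩ := exists_shift hc x.1.2 x.2.2
    have hT1 : ((m1 + x.1.1, n1 + x.1.2) : ℤ × ℤ) ∈ Tor b c := ⟨h3, g3⟩
    have hT2 : ((m, n) : ℤ × ℤ) ∈ Tor b' c' := Tor_le hb hc ⟨hm, hn⟩
    have hT3 : ((m1, n1) : ℤ × ℤ) ∈ Tor b' c' := Tor_le hb hc ⟨h1, g1⟩
    refine ⟨m1 + m, n1 + n, by rw [mul_add]; exact add_nonneg h1 hm,
      by rw [mul_add]; exact add_nonneg g1 hn, fun h => by rw [h2 h, hm0 h, add_zero],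
      fun h => by rw [g2 h, hn0 h, add_zero],
      (AddMonoidAlgebra.single ⟨_, hT1⟩ r : TorRing k b c) • e, ?_⟩
    rw [(N.res_bc hb hc).1, he, torMap_single, smul_smul, smul_smul]
    congr 1
    rw [chi_of_mem hT2, chi_of_mem (show ((m1 + m, n1 + n) : ℤ × ℤ) ∈ Tor b' c' from
      add_mem hT3 hT2), AddMonoidAlgebra.single_mul_single, AddMonoidAlgebra.single_mul_single,
      mul_one, one_mul]
    congr 1
    apply Subtype.ext
    show ((m1 + x.1.1, n1 + x.1.2) : ℤ × ℤ) + (m, n) = (m1 + m, n1 + n) + x.1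
    ext
    · show m1 + x.1.1 + m = m1 + m + x.1.1
      ring
    · show n1 + x.1.2 + n = n1 + n + x.1.2
      ring

theorem loc_all (N : MFam k) {b c b' c' : SignType} (hb : Sub b b') (hc : Sub c c')
    (v : N.mod b' c') : Loc N hb hc v := by
  have hv : v ∈ Submodule.span (TorRing k b' c') (Set.range (N.res hb hc)) := by
    rw [(N.res_bc hb hc).span]; trivial
  induction hv using Submodule.span_induction with
  | mem u hu =>
    obtain ⟨e, rfl⟩ := hu
    exact ⟨0, 0, by simp, by simp, fun _ => rfl, fun _ => rfl, e, by rw [chi_zero, one_smul]⟩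
  | zero => exact ⟨0, 0, by simp, by simp, fun _ => rfl, fun _ => rfl, 0, by simp⟩
  | add u w _ _ hu hw => exact loc_add N hb hc hu hw
  | smul a u _ hu => exact loc_smul N hb hc hu a

/-! ### separation -/

/-- the exponents of `t ^ c` are at least `-n` -/
def Low (b c : SignType) (n : ℤ) (a : TorRing k b 0) : Prop :=
  ∀ m ∈ a.coeff.support, -n ≤ (c : ℤ) * m.1.2

theorem low_zero (b c : SignType) (n : ℤ) : Low b c n (0 : TorRing k b 0) := by
  intro m hm
  simp at hm

theorem low_add {b c : SignType} {n : ℤ} {a a' : TorRing k b 0} (h : Low b c n a)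
    (h' : Low b c n a') : Low b c n (a + a') := by
  classical
  intro m hm
  rw [AddMonoidAlgebra.coeff_add] at hm
  rcases Finset.mem_union.1 (Finsupp.support_add hm) with h1 | h1
  · exact h m h1
  · exact h' m h1

theorem low_mono {b c : SignType} {n n' : ℤ} {a : TorRing k b 0} (h : Low b c n a)
    (hn : n ≤ n') : Low b c n' a := fun m hm => le_trans (neg_le_neg hn) (h m hm)

theorem low_mul {b c : SignType} {n : ℤ} (a : TorRing k b c) {f : TorRing k b 0}
    (h : Low b c n f) : Low b c n (torMap k (Sub.refl b) (Sub.zero c) a * f) := by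
  classical
  induction a using AddMonoidAlgebra.induction_linear with
  | zero => rw [map_zero, zero_mul]; exact low_zero b c n
  | add a a' ha ha' => rw [map_add, add_mul]; exact low_add ha ha'
  | single x r =>
    rw [torMap_single]
    intro m hm
    have h1 := AddMonoidAlgebra.support_coeff_single_mul_subset _ _ _ hm
    rw [Finset.mem_image] at h1
    obtain ⟨y, hy, rfl⟩ := h1
    have h2 := h y hy
    have h3 : 0 ≤ (c : ℤ) * x.1.2 := x.2.2
    show -n ≤ (c : ℤ) * (x.1.2 + y.1.2)
    rw [mul_add]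
    linarith

theorem abs_sign_mul (c : SignType) (z : ℤ) : -|z| ≤ (c : ℤ) * z := by
  rcases c with _ | _ | _
  · have : ((SignType.zero : SignType) : ℤ) = 0 := rfl
    rw [this, zero_mul]
    have := abs_nonneg z
    linarith
  · have : ((SignType.neg : SignType) : ℤ) = -1 := rfl
    rw [this]
    have := le_abs_self z
    linarith
  · have : ((SignType.pos : SignType) : ℤ) = 1 := rfl
    rw [this, one_mul]
    exact neg_abs_le z

theorem low_exists {ι : Type} (b c : SignType) (f : ι →₀ TorRing k b 0) :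
    ∃ n : ℤ, 0 ≤ n ∧ ∀ i, Low b c n (f i) := by
  refine ⟨∑ i ∈ f.support, ∑ m ∈ (f i).coeff.support, |m.1.2|,
    Finset.sum_nonneg fun i _ => Finset.sum_nonneg fun m _ => abs_nonneg _, fun i m hm => ?_⟩
  have hi : i ∈ f.support := by
    rw [Finsupp.mem_support_iff]
    intro h
    rw [h] at hm
    simp at hm
  have h1 : |m.1.2| ≤ ∑ m ∈ (f i).coeff.support, |m.1.2| :=
    Finset.single_le_sum (f := fun m : Tor b 0 => |m.1.2|) (fun _ _ => abs_nonneg _) hm
  have h2 : ∑ m ∈ (f i).coeff.support, |m.1.2| ≤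
      ∑ i ∈ f.support, ∑ m ∈ (f i).coeff.support, |m.1.2| :=
    Finset.single_le_sum (f := fun i => ∑ m ∈ (f i).coeff.support, |m.1.2|)
      (fun _ _ => Finset.sum_nonneg fun _ _ => abs_nonneg _) hi
  have h3 := abs_sign_mul c m.1.2
  linarith

theorem bound (N : MFam k) (b c : SignType) {ι : Type}
    (s : N.mod b 0 →ₗ[TorRing k b 0] (ι →₀ TorRing k b 0)) :
    ∃ n : ℤ, 0 ≤ n ∧ ∀ x : N.mod b c, ∀ i,
      Low b c n (s (N.res (Sub.refl b) (Sub.zero c) x) i) := by
  obtain ⟨W, hW⟩ := Module.Finite.fg_top (R := TorRing k b c) (M := N.mod b c)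
  choose nn hnn0 hnn using fun f : ι →₀ TorRing k b 0 => low_exists b c f
  refine ⟨∑ w ∈ W, nn (s (N.res (Sub.refl b) (Sub.zero c) w)),
    Finset.sum_nonneg fun w _ => hnn0 _, fun x => ?_⟩
  have hx : x ∈ Submodule.span (TorRing k b c) (W : Set (N.mod b c)) := by
    rw [hW]; trivial
  induction hx using Submodule.span_induction with
  | mem w hw =>
    intro i
    refine low_mono (hnn _ i) ?_
    exact Finset.single_le_sum
      (f := fun w => nn (s (N.res (Sub.refl b) (Sub.zero c) w))) (fun _ _ => hnn0 _) hw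
  | zero =>
    intro i
    rw [map_zero, map_zero]
    exact low_zero b c _
  | add u v _ _ hu hv =>
    intro i
    rw [map_add, map_add]
    exact low_add (hu i) (hv i)
  | smul a u _ hu =>
    intro i
    rw [(N.res_bc (Sub.refl b) (Sub.zero c)).1, map_smul, Finsupp.smul_apply, smul_eq_mul]
    exact low_mul a (hu i)

theorem sep (N : MFam k) : ∃ q0 : ℤ, ∀ q ≥ q0, ∀ (b : SignType) (x : N.mod b 1)
    (y : N.mod b (-1)), N.res (Sub.refl b) (Sub.zero 1) x =
      chi k b 0 (0, -q) • N.res (Sub.refl b) (Sub.zero (-1)) y → x = 0 := by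
  classical
  have hproj : ∀ b : SignType, ∃ s : N.mod b 0 →ₗ[TorRing k b 0] (N.mod b 0 →₀ TorRing k b 0),
      Function.Injective s := by
    intro b
    obtain ⟨s, hs⟩ := Module.projective_def'.1
      (inferInstance : Module.Projective (TorRing k b 0) (N.mod b 0))
    refine ⟨s, fun x y hxy => ?_⟩
    have h2 : ∀ z, Finsupp.linearCombination (TorRing k b 0) id (s z) = z := fun z => by
      exact congrArg (fun f : N.mod b 0 →ₗ[TorRing k b 0] N.mod b 0 => f z) hs
    rw [← h2 x, hxy, h2]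
  choose s hs using hproj
  choose np hnp0 hnp using fun b : SignType => bound N b 1 (s b)
  choose nm hnm0 hnm using fun b : SignType => bound N b (-1) (s b)
  refine ⟨∑ b : SignType, (np b + nm b) + 1, fun q hq b x y hxy => ?_⟩
  have hqb : np b + nm b < q := by
    have h1 : np b + nm b ≤ ∑ b : SignType, (np b + nm b) :=
      Finset.single_le_sum (f := fun b : SignType => np b + nm b)
        (fun b _ => add_nonneg (hnp0 b) (hnm0 b)) (Finset.mem_univ b)
    linarith
  apply res_inj N (Sub.refl b) (Sub.zero 1)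
  rw [map_zero]
  apply hs b
  rw [map_zero]
  ext1 i
  rw [Finsupp.zero_apply]
  have h1 := hnp b x i
  have h2 := hnm b y i
  have h3 : s b (N.res (Sub.refl b) (Sub.zero 1) x) i =
      chi k b 0 (0, -q) * s b (N.res (Sub.refl b) (Sub.zero (-1)) y) i := by
    rw [hxy, map_smul, Finsupp.smul_apply, smul_eq_mul]
  by_contra hne
  have hne2 : (s b (N.res (Sub.refl b) (Sub.zero 1) x) i).coeff.support.Nonempty := by
    rw [Finset.nonempty_iff_ne_empty]
    intro h
    apply hne
    rw [Finsupp.support_eq_empty] at h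
    exact AddMonoidAlgebra.coeff_injective h
  obtain ⟨m, hm⟩ := hne2
  have h4 := h1 m hm
  rw [h3] at hm
  have hT : ((0, -q) : ℤ × ℤ) ∈ Tor b 0 := ⟨by simp, by simp⟩
  rw [chi_of_mem hT] at hm
  have h5 := AddMonoidAlgebra.support_coeff_single_mul_subset _ _ _ hm
  rw [Finset.mem_image] at h5
  obtain ⟨z, hz, rfl⟩ := h5
  have h6 := h2 z hz
  have e1 : (((-1 : SignType)) : ℤ) = -1 := rfl
  have e2 : (((1 : SignType)) : ℤ) = 1 := rfl
  rw [e1] at h6
  rw [e2] at h4
  have h7 : -np b ≤ 1 * (-q + z.1.2) := h4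
  linarith

theorem mGood : W633.LT.MGood := by
  intro k _ N
  refine ⟨fg N, fun hb hc => res_inj N hb hc, ?_, ?_⟩
  · intro b c b' c' hb hc v
    obtain ⟨m, n, hm, hn, hm0, hn0, e, he⟩ := loc_all N hb hc v
    exact ⟨m, n, hm, hn, hm0, hn0, e, he⟩
  · obtain ⟨q0, hq0⟩ := sep N
    exact ⟨q0, fun q hq b x y h => hq0 q hq b x y h⟩

end Pool.Agent.W605.LG
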