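import Pool.Agent.W633.LT.Stm

set_option autoImplicit false

/-! # LG-MTF: exact sequences and twists of bundles give those of families -/

namespace Pool.Agent.W605.LG

open W633.LT

variable {k : Type} [Field k]

/-- a linear map as a map of operator families -/
noncomputable def lin (N N' : MFam k) {b c : SignType}
    (f : N.mod b c →ₗ[TorRing k b c] N'.mod b c) : N.toFam.V b c →ₗ[k] N'.toFam.V b c where
  toFun := f
  map_add' v w := map_add f v w
  map_smul' r v := f.map_smul (algebraMap k (TorRing k b c) r) v

/-- a linear equivalence as an equivalence of operator families -/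
noncomputable def linE (N N' : MFam k) {b c : SignType}
    (f : N.mod b c ≃ₗ[TorRing k b c] N'.mod b c) : N.toFam.V b c ≃ₗ[k] N'.toFam.V b c where
  toFun := f
  map_add' v w := map_add f v w
  map_smul' r v := f.map_smul (algebraMap k (TorRing k b c) r) v
  invFun := f.symm
  left_inv v := f.symm_apply_apply v
  right_inv v := f.apply_symm_apply v

theorem mToFam : W633.LT.MToFam := by
  intro k _
  refine ⟨?_, ?_⟩
  · rintro N' N N'' ⟨f, g, hf, hg, hex⟩
    refine ⟨fun b c => lin N' N (f b c), fun b c => lin N N'' (g b c), ?_, ?_, ?_, ?_, ?_⟩
    · intro b c m n v _ _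
      exact (f b c).map_smul (chi k b c (m, n)) v
    · intro b c m n v _ _
      exact (g b c).map_smul (chi k b c (m, n)) v
    · intro b c b' c' hb hc v
      exact hf hb hc v
    · intro b c b' c' hb hc v
      exact hg hb hc v
    · intro b c
      exact hex b c
  · rintro N N' ep em ⟨φ, h1, h2, h3⟩
    refine ⟨fun b c => linE N N' (φ b c), ?_, ?_, ?_, ?_⟩
    · intro b c m n v _ _
      exact (φ b c).map_smul (chi k b c (m, n)) v
    · intro b b' hb c v
      exact h1 hb c v
    · intro b b' hb v
      exact h2 hb v
    · intro b b' hb v
      exact h3 hb v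

end Pool.Agent.W605.LG
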